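import Pool.Agent.helper91.ADV.SpecM

/-! Project adv (MP_069684_lc), row MWC: windows for monotone functions of the first `u` bits. -/

set_option autoImplicit false

namespace Pool.Agent.ADV

open Finset Pool.Agent.helper38.Neg Pool.Agent.helper55.NT Pool.Agent.LNB

theorem MWC_wt (u n : ℕ) (z : Fin n → Bool) : wt (LN.io u z) = wtu u z + (n - min u n) := by
  have e : wt (LN.io u z) = ∑ i : Fin n, ((if z i = true then 1 else 0) +
      (if (if (i : ℕ) < u then false else !(z i)) = true then 1 else 0)) := by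
    unfold wt
    rw [Finset.card_filter, Fin.sum_univ_add, Finset.sum_add_distrib]
    unfold LN.io
    simp only [Fin.append_left, Fin.append_right]
  have e2 : wtu u z = ∑ i : Fin n, (if (i : ℕ) < u ∧ z i = true then 1 else 0) := by
    unfold wtu
    rw [Finset.card_filter]
  rw [e, e2, ← LN.TUP_count u n, ← Fin.sum_univ_eq_sum_range (fun i => if i < u then 0 else 1) n,
    ← Finset.sum_add_distrib]
  refine Finset.sum_congr rfl fun i _ => ?_
  by_cases h : (i : ℕ) < u <;> cases z i <;> simp [h]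

theorem MWC_size (n s b r : ℕ) (hb : 1 ≤ b) (h2 : 2 ^ r ≤ 2 * n + 2) :
    (n + 1) ^ b * (2 * (n + 2) ^ 2) + 2 ^ r * (b * ((n + 1) ^ b * (2 * s + 2))) +
      6 * 2 ^ r + 2 ≤ 18 * b * (s + 1) * (n + 2) ^ (b + 2) := by
  have e1 : (n + 1) ^ b * (2 * (n + 2) ^ 2) ≤ 2 * (n + 2) ^ (b + 2) := by
    rw [pow_add]
    have : (n + 1) ^ b ≤ (n + 2) ^ b := Nat.pow_le_pow_left (by omega) _
    nlinarith [Nat.mul_le_mul_right ((n + 2) ^ 2) this]
  have e2 : 2 ^ r * (b * ((n + 1) ^ b * (2 * s + 2))) ≤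
      4 * (b * (s + 1)) * (n + 2) ^ (b + 2) := by
    have a1 : (n + 1) ^ b * (n + 1) ≤ (n + 2) ^ (b + 2) := by
      rw [← pow_succ]
      exact (Nat.pow_le_pow_left (by omega) _).trans (Nat.pow_le_pow_right (by omega) (by omega))
    calc 2 ^ r * (b * ((n + 1) ^ b * (2 * s + 2)))
        ≤ (2 * n + 2) * (b * ((n + 1) ^ b * (2 * s + 2))) := Nat.mul_le_mul_right _ h2
      _ = 4 * (b * (s + 1)) * ((n + 1) ^ b * (n + 1)) := by ring
      _ ≤ 4 * (b * (s + 1)) * (n + 2) ^ (b + 2) := Nat.mul_le_mul_left _ a1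
  have e3 : n + 2 ≤ (n + 2) ^ (b + 2) := Nat.le_self_pow (by omega) _
  have e4 : 1 ≤ b * (s + 1) := Nat.mul_pos hb (by omega)
  obtain ⟨Q, hQ⟩ : ∃ Q, Q = (n + 2) ^ (b + 2) := ⟨_, rfl⟩
  rw [← hQ] at e1 e2 e3 ⊢
  have e5 : Q ≤ b * (s + 1) * Q := Nat.le_mul_of_pos_left _ e4
  have e6 : 18 * b * (s + 1) * Q = 18 * (b * (s + 1) * Q) := by ring
  have e7 : 4 * (b * (s + 1)) * Q = 4 * (b * (s + 1) * Q) := by ring
  rw [e6]
  rw [e7] at e2
  omega

theorem MWC : MWC_stmt := by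
  intro n s u b r w C o hm hb h2
  obtain ⟨g, hg1, hg2, s1, hs1, C1, o1, hC1⟩ := LN.TFF n s u C o (fun x => C.val x o = true)
    (fun x => Iff.rfl) hm
  obtain ⟨L', q', h1, h2', h3, h4, h5⟩ := LN.TSI_rel g hg1 C1 o1 hC1 ((n - min u n) + w) b r [] 0
    SL.nil (fun f hf => absurd hf (Set.notMem_empty f))
  obtain ⟨L2, k1, k2, k3⟩ := LN.TTR n u q' L' h1
  obtain ⟨C2, ⟨S, hS1, hS2⟩, l2⟩ := LN.TSC n u q' L2 k1
  obtain ⟨k, hk⟩ := l2 _ (k3 _ (h5 _ rfl))
  refine ⟨L2.length, ?_, C2, k, ⟨S, by omega, hS2⟩, ?_⟩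
  · have e0 := MWC_size (n + n) s1 b r hb h2
    have e1 : 18 * b * (s1 + 1) * (n + n + 2) ^ (b + 2) ≤
        18 * b * (s + 5 * n + 6) * (n + n + 2) ^ (b + 2) := by
      apply Nat.mul_le_mul_right
      apply Nat.mul_le_mul_left
      omega
    simp only [List.length_nil, zero_add] at h3
    omega
  · intro z
    rw [hk z]
    have hw := MWC_wt u n z
    have hz : g (LN.io u z) = C.val z o := by
      rw [Bool.eq_iff_iff]
      exact hg2 z
    unfold winu
    simp only [hw, hz]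
    have a1 : (n - min u n + w + b * 2 ^ r ≤ wtu u z + (n - min u n)) ↔
        (w + b * 2 ^ r ≤ wtu u z) := by omega
    have a2 : (n - min u n + w ≤ wtu u z + (n - min u n)) ↔ (w ≤ wtu u z) := by omega
    simp only [a1, a2]
    by_cases hB : w + b * 2 ^ r ≤ wtu u z
    · have hA : w ≤ wtu u z := by omega
      simp [hA, hB]
    · simp [hB]

end Pool.Agent.ADV
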